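import Pool.Agent.Y41.EV.StmL
import Pool.Agent.Y995.FS.LimF

/-!
# Project EV (MP_216314_pr), job EV-BADVM: bad curves at mesh `δ` come from bad pieces of the path
-/

set_option autoImplicit false

namespace Pool.Agent.Z864.EV

open H974 Finset H342P H984P H984N Y994.MC Pool.Agent.Y985.ME Pool.Agent.Y884.ME
open Pool.Agent.Y995.FS Pool.Agent.Y995.HG MeasureTheory Filter Topology
open Pool.Agent.Y41.EV

/-- job EV-BADVM -/
theorem badvm : S_BADVM := by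
  classical
  intro R δ ρ w τ h M K1 m N W L F hδ hw0 hw hτ hK1 hL hh hok hF hbad
  obtain ⟨s, t, h1, h2, h3⟩ := hbad
  obtain ⟨n, hn⟩ : ∃ n, n = (R.dm δ).len F := ⟨_, rfl⟩
  obtain ⟨p, hp⟩ : ∃ p : ℕ → ℂ, p = fun k => pos δ ((R.dm δ).walk F k) := ⟨_, rfl⟩
  have hc : R.curve δ F = pl n p := by unfold Rect.curve; rw [hn, hp]
  have h10 : R.time δ F = δ ^ (7/4 : ℝ) * n := by unfold Rect.time; rw [hn]
  simp only [hc, h10] at h1 h2 h3
  have hδ7 : 0 < δ ^ (7/4 : ℝ) := Real.rpow_pos_of_pos hδ _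
  have hWp : 0 ≤ (W : ℝ) ^ (7/4 : ℝ) * (K1 * (98 * N)) := by positivity
  -- the nodes
  have hlong : (W : ℝ) ^ (7/4 : ℝ) * (K1 * (98 * N)) + 2 < (n : ℝ) * ((t : ℝ) - s) := by
    have h4 : ((W : ℝ) ^ (7/4 : ℝ) * (K1 * (98 * N)) + 2) * δ ^ (7/4 : ℝ) <
        (n * ((t : ℝ) - s)) * δ ^ (7/4 : ℝ) := by
      refine lt_of_le_of_lt hh (h2.trans_le (le_of_eq ?_))
      ring
    exact lt_of_mul_lt_mul_right h4 hδ7.le
  have ht1 : (t : ℝ) ≤ 1 := t.2.2
  have ht0 : 0 ≤ (t : ℝ) := t.2.1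
  have hs0 : 0 ≤ (s : ℝ) := s.2.1
  have hn0 : 0 < n := by
    rcases Nat.eq_zero_or_pos n with h | h
    · rw [h] at hlong
      simp only [CharP.cast_eq_zero, zero_mul] at hlong
      linarith
    · exact h
  have hn' : (0 : ℝ) < n := by exact_mod_cast hn0
  obtain ⟨k, hk⟩ : ∃ k, k = ⌈(s : ℝ) * n⌉₊ := ⟨_, rfl⟩
  obtain ⟨l, hl⟩ : ∃ l, l = ⌊(t : ℝ) * n⌋₊ := ⟨_, rfl⟩
  have hk1 : (s : ℝ) * n ≤ k := by rw [hk]; exact Nat.le_ceil _
  have hk2 : (k : ℝ) < s * n + 1 := by rw [hk]; exact Nat.ceil_lt_add_one (by positivity)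
  have hl1 : (l : ℝ) ≤ t * n := by rw [hl]; exact Nat.floor_le (by positivity)
  have hl2 : (t : ℝ) * n < l + 1 := by rw [hl]; exact Nat.lt_floor_add_one _
  have hkl : k ≤ l := by
    have : (k : ℝ) < l + 1 := by linarith
    have h5 : k < l + 1 := by exact_mod_cast this
    omega
  have hln : l ≤ n := by
    have : (l : ℝ) ≤ n := hl1.trans (by nlinarith)
    exact_mod_cast this
  have hnodeT : ∀ i (hin : i ≤ n), k ≤ i → i ≤ l →
      s ≤ nodeT n i hin ∧ nodeT n i hin ≤ t := by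
    intro i hin hi1 hi2
    constructor
    · change (s : ℝ) ≤ (i : ℝ) / n
      rw [le_div_iff₀ hn']
      have : (k : ℝ) ≤ i := by exact_mod_cast hi1
      linarith
    · change (i : ℝ) / n ≤ (t : ℝ)
      rw [div_le_iff₀ hn']
      have : (i : ℝ) ≤ l := by exact_mod_cast hi2
      linarith
  have hnode : ∀ i, k ≤ i → i ≤ l → ρ < dep R (p i) := by
    intro i hi1 hi2
    have hin : i ≤ n := by omega
    have h4 := hnodeT i hin hi1 hi2
    have h5 := h1 (nodeT n i hin) h4.1 h4.2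
    rwa [pl_nodeT hin hn0] at h5
  unfold FewF
  refine ⟨k, l, hkl, by rw [← hn]; exact hln, ?_, ?_, ?_⟩
  · intro i hi1 hi2
    have h5 := hnode i hi1 hi2
    have h6 := bd_ge (R := R) hδ ((R.dm δ).walk F i)
    have h7 : p i = pos δ ((R.dm δ).walk F i) := by rw [hp]
    rw [h7] at h5
    have h8 : δ * ((4 * L : ℤ) : ℝ) ≤ δ * (((R.dm δ).bd ((R.dm δ).walk F i).1 : ℤ) : ℝ) := by
      push_cast
      linarith
    exact_mod_cast le_of_mul_le_mul_left h8 hδ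
  · rw [Nat.cast_add, Nat.cast_sub hkl]
    push_cast
    have : (n : ℝ) * ((t : ℝ) - s) = t * n - s * n := by ring
    linarith
  · rintro ⟨Z, z1, z2, z3⟩
    apply h3
    obtain ⟨Z', hZ', hZc⟩ := Finset.exists_subset_card_eq z1
    have eqv := Z'.equivFinOfCardEq hZc
    have hz : ∀ a : Fin N, ((eqv.symm a : {x // x ∈ Z'}) : ℕ × ℕ) ∈ Z := fun a =>
      hZ' (eqv.symm a).2
    have hne : ∀ a b : Fin N, a ≠ b →
        ((eqv.symm a : {x // x ∈ Z'}) : ℕ × ℕ) ≠ ((eqv.symm b : {x // x ∈ Z'}) : ℕ × ℕ) := by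
      intro a b hab h
      exact hab (eqv.symm.injective (Subtype.ext h))
    have hb1 : ∀ a : Fin N, ((eqv.symm a : {x // x ∈ Z'}) : ℕ × ℕ).1 ≤ n := fun a => by
      have := z3 _ (hz a)
      omega
    have hb2 : ∀ a : Fin N, ((eqv.symm a : {x // x ∈ Z'}) : ℕ × ℕ).2 ≤ n := fun a => by
      have := z3 _ (hz a)
      omega
    have hle : ∀ (i j : ℕ) (hi : i ≤ n) (hj : j ≤ n), i ≤ j → nodeT n i hi ≤ nodeT n j hj := by
      intro i j hi hj hij
      change (i : ℝ) / n ≤ (j : ℝ) / n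
      refine div_le_div_of_nonneg_right ?_ hn'.le
      exact_mod_cast hij
    refine ⟨fun a => nodeT n _ (hb1 a), fun a => nodeT n _ (hb2 a), ?_, ?_, ?_⟩
    · intro a
      have := z3 _ (hz a)
      exact ⟨(hnodeT _ (hb1 a) (by omega) (by omega)).1, hle _ _ _ _ (by omega),
        (hnodeT _ (hb2 a) (by omega) (by omega)).2⟩
    · intro a b hab
      rcases z2 _ (hz a) _ (hz b) (hne a b hab) with h | h
      · exact Or.inl (hle _ _ _ _ h.le)
      · exact Or.inr (hle _ _ _ _ h.le)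
    · intro a
      obtain ⟨c1, c2, c3, c4, c5⟩ := z3 _ (hz a)
      obtain ⟨i, hi⟩ : ∃ i, i = ((eqv.symm a : {x // x ∈ Z'}) : ℕ × ℕ).1 := ⟨_, rfl⟩
      obtain ⟨j, hj⟩ : ∃ j, j = ((eqv.symm a : {x // x ∈ Z'}) : ℕ × ℕ).2 := ⟨_, rfl⟩
      constructor
      · show w ≤ dist (pl n p (nodeT n _ (hb1 a))) (pl n p (nodeT n _ (hb2 a)))
        rw [pl_nodeT (hb1 a) hn0, pl_nodeT (hb2 a) hn0, hp]
        simp only
        rw [← hi, ← hj] at c4 ⊢
        have h7 := le_dist_pos hδ.le ((R.dm δ).walk F i) ((R.dm δ).walk F j)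
        have h8 : ((20 * m : ℤ) : ℝ) ≤
            ((sd ((R.dm δ).walk F i).1 ((R.dm δ).walk F j).1 : ℤ) : ℝ) := by
          exact_mod_cast c4
        push_cast at h8
        have h9 : δ * (20 * m - 1/2) ≤ δ * (((sd ((R.dm δ).walk F i).1
          ((R.dm δ).walk F j).1 : ℤ) : ℝ) - 1/2) :=
          mul_le_mul_of_nonneg_left (by linarith) hδ.le
        linarith
      · show δ ^ (7/4 : ℝ) * n * (((nodeT n _ (hb2 a) : unitInterval) : ℝ) -
          ((nodeT n _ (hb1 a) : unitInterval) : ℝ)) ≤ τ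
        have e1 : ((nodeT n _ (hb1 a) : unitInterval) : ℝ) =
          (((eqv.symm a : {x // x ∈ Z'}) : ℕ × ℕ).1 : ℝ) / n := rfl
        have e2 : ((nodeT n _ (hb2 a) : unitInterval) : ℝ) =
          (((eqv.symm a : {x // x ∈ Z'}) : ℕ × ℕ).2 : ℝ) / n := rfl
        rw [e1, e2, ← hi, ← hj]
        rw [← hi, ← hj] at c5 c2
        rw [Nat.cast_sub c2] at c5
        have e3 : δ ^ (7/4 : ℝ) * n * ((j : ℝ) / n - (i : ℝ) / n) =
            ((j : ℝ) - i) * δ ^ (7/4 : ℝ) := by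
          field_simp
        rw [e3]
        exact (mul_le_mul_of_nonneg_right c5 hδ7.le).trans hτ

end Pool.Agent.Z864.EV
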